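import Mathlib

open Set Filter Topology

namespace Pool.Agent.Results.MP_aae45c_an.No

/-- the modular `ρ_p(a) = ∑ |a_j|^{p_j}` in `[0,∞]` -/
noncomputable def rho (p a : ℕ → ℝ) : ENNReal := ∑' j, ENNReal.ofReal (|a j| ^ p j)

/-- the space `ℓ^{(p_n)}` -/
def L (p : ℕ → ℝ) : Set (ℕ → ℝ) := {a | ∃ c : ℝ, 0 < c ∧ rho p (c • a) < ⊤}

/-- `ρ`-closed subsets of `ℓ^{(p_n)}` -/
def RhoClosed (p : ℕ → ℝ) (F : Set (L p)) : Prop :=
  ∀ (x : ℕ → L p) (y : L p), (∀ k, x k ∈ F) →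
    Tendsto (fun k => rho p ((x k).1 - y.1)) atTop (𝓝 0) → y ∈ F

/-- open sets of the modular topology -/
def RhoOpen (p : ℕ → ℝ) (U : Set (L p)) : Prop := RhoClosed p Uᶜ

def P : ℕ → ℝ := fun n => (n : ℝ) + 1

theorem rho_eq (a : ℕ → ℝ) : rho P a = ∑' j, ENNReal.ofReal (|a j| ^ (j + 1)) := by
  unfold rho
  congr 1
  funext j
  rw [show P j = ((j + 1 : ℕ) : ℝ) by simp [P], Real.rpow_natCast]

theorem geom_ne_top {b : ℝ} (h0 : 0 ≤ b) (h1 : b < 1) :
    ∑' j : ℕ, ENNReal.ofReal (b ^ (j + 1)) ≠ ⊤ := by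
  have hs : Summable (fun j : ℕ => b ^ (j + 1)) :=
    (summable_nat_add_iff 1).2 (summable_geometric_of_lt_one h0 h1)
  rw [← ENNReal.ofReal_tsum_of_nonneg (fun j => by positivity) hs]
  exact ENNReal.ofReal_ne_top

theorem mem_L {a : ℕ → ℝ} {C : ℝ} (h : ∀ k, |a k| ≤ C) : a ∈ L P := by
  have hC : 0 ≤ C := (abs_nonneg _).trans (h 0)
  refine ⟨1 / (2 * (C + 1)), by positivity, ?_⟩
  rw [rho_eq]
  refine lt_of_le_of_lt (ENNReal.tsum_le_tsum fun j => ENNReal.ofReal_le_ofReal ?_)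
    (geom_ne_top (b := 1 / 2) (by norm_num) (by norm_num)).lt_top
  gcongr
  rw [Pi.smul_apply, smul_eq_mul, abs_mul, abs_of_pos (by positivity), div_mul_eq_mul_div,
    div_le_div_iff₀ (by positivity) (by norm_num)]
  linarith [h j]

theorem abs_le_one {a : ℕ → ℝ} (h : rho P a ≤ 1) (k : ℕ) : |a k| ≤ 1 := by
  rw [rho_eq] at h
  have h1 := (ENNReal.le_tsum (f := fun j => ENNReal.ofReal (|a j| ^ (j + 1))) k).trans h
  rw [ENNReal.ofReal_le_one] at h1
  exact (pow_le_one_iff_of_nonneg (abs_nonneg _) (Nat.succ_ne_zero k)).1 h1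

theorem eq_zero {a : ℕ → ℝ} (h : rho P a = 0) : a = 0 := by
  rw [rho_eq, ENNReal.tsum_eq_zero] at h
  funext k
  have h1 := h k
  rw [ENNReal.ofReal_eq_zero] at h1
  have h2 : |a k| ^ (k + 1) = 0 := le_antisymm h1 (by positivity)
  simpa using h2

theorem open_tail {U : Set (L P)} (hU : RhoOpen P U) {y : L P} (hy : y ∈ U) {b : ℝ}
    (h0 : 0 ≤ b) (h1 : b < 1) :
    ∃ n, ∀ w : L P, (∀ k < n, w.1 k = y.1 k) → (∀ k, |w.1 k - y.1 k| ≤ b) → w ∈ U := by
  by_contra hc
  push Not at hc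
  choose w hw1 hw2 hw3 using hc
  refine hU w y hw3 ?_ hy
  refine tendsto_of_tendsto_of_tendsto_of_le_of_le tendsto_const_nhds
    (ENNReal.tendsto_sum_nat_add _ (geom_ne_top h0 h1)) (fun _ => zero_le) fun n => ?_
  simp only
  rw [rho_eq, ← Summable.sum_add_tsum_nat_add' (k := n) ENNReal.summable,
    Finset.sum_eq_zero, zero_add]
  · refine ENNReal.tsum_le_tsum fun j => ENNReal.ofReal_le_ofReal ?_
    gcongr
    exact hw2 n _
  · intro k hk
    simp [hw1 n k (Finset.mem_range.1 hk)]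

def code (l : ℕ) (g : ℕ → ℤ) : ℕ := Encodable.encode (List.ofFn (fun i : Fin l => g i))

def sg (c k : ℕ) : ℤ := if (Nat.unpair k).1 = c then 1 else -1

theorem abs_sg (c k : ℕ) : |sg c k| = 1 := by unfold sg; split_ifs <;> simp

theorem abs_sg' (c k : ℕ) : |(sg c k : ℝ)| = 1 := by
  rw [← Int.cast_abs, abs_sg]; simp

noncomputable def u (l : ℕ) (g : ℕ → ℤ) : ℕ → ℝ :=
  fun k => if k < l then (g k : ℝ) / 4 else 9 / 8 * (sg (code l g) k : ℝ)

theorem u_eq {l l' : ℕ} {g g' : ℕ → ℤ} (h : code l g = code l' g') : u l g = u l' g' := by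
  have h1 := Encodable.encode_injective h
  have h2 : l = l' := by simpa using congrArg List.length h1
  subst h2
  have h3 := List.ofFn_injective h1
  funext k
  unfold u
  rw [h]
  split_ifs with hk
  · have := congrFun h3 ⟨k, hk⟩
    simp only at this
    rw [this]
  · rfl

theorem u_far {l l' : ℕ} {g g' : ℕ → ℤ} (h : code l g ≠ code l' g') :
    ∃ k, u l g k - u l' g' k = 9 / 4 := by
  refine ⟨Nat.pair (code l g) (l + l'), ?_⟩
  have := Nat.right_le_pair (code l g) (l + l')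
  have h1 : ¬ Nat.pair (code l g) (l + l') < l := by omega
  have h2 : ¬ Nat.pair (code l g) (l + l') < l' := by omega
  simp only [u, sg, if_neg h1, if_neg h2, Nat.unpair_pair, if_true, if_neg h]
  norm_num

def F : Set (L P) := {x | ∃ l g, x.1 = u l g}

theorem F_closed : RhoClosed P F := by
  intro x y hx ht
  obtain ⟨k₀, hk₀⟩ := eventually_atTop.1 (ht.eventually (ge_mem_nhds zero_lt_one))
  have hc : ∀ k ≥ k₀, (x k).1 = (x k₀).1 := by
    intro k hk
    obtain ⟨l, g, e⟩ := hx k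
    obtain ⟨l', g', e'⟩ := hx k₀
    by_cases h : code l g = code l' g'
    · rw [e, e', u_eq h]
    · obtain ⟨j, hj⟩ := u_far h
      have a1 := abs_le.1 (abs_le_one (hk₀ k hk) j)
      have a2 := abs_le.1 (abs_le_one (hk₀ k₀ le_rfl) j)
      rw [e, Pi.sub_apply] at a1
      rw [e', Pi.sub_apply] at a2
      linarith [a1.2, a2.1]
  have h0 : rho P ((x k₀).1 - y.1) = 0 := by
    refine tendsto_nhds_unique (tendsto_const_nhds.congr' ?_) ht
    filter_upwards [eventually_ge_atTop k₀] with k hk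
    rw [hc k hk]
  obtain ⟨l, g, e⟩ := hx k₀
  exact ⟨l, g, by rw [← e, sub_eq_zero.1 (eq_zero h0)]⟩

theorem u_bd {l : ℕ} {g : ℕ → ℤ} (hg : ∀ k, |g k| ≤ 1) (k : ℕ) : |u l g k| ≤ 2 := by
  unfold u
  split_ifs
  · have : |(g k : ℝ)| ≤ 1 := by exact_mod_cast hg k
    rw [abs_div, abs_of_pos (by norm_num : (0 : ℝ) < 4)]
    linarith
  · rw [abs_mul, abs_sg']; norm_num

theorem result : ∃ p : ℕ → ℝ, (∀ n, 1 ≤ p n) ∧ ∃ (x : L p) (F : Set (L p)),
    RhoClosed p F ∧ x ∉ F ∧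
      ∀ U V : Set (L p), RhoOpen p U → RhoOpen p V → x ∈ U → F ⊆ V → ¬ Disjoint U V := by
  refine ⟨P, fun n => by simp [P], ⟨0, mem_L (C := 0) (by simp)⟩, F, F_closed, ?_, ?_⟩
  · rintro ⟨l, g, e⟩
    have h1 := congrFun e l
    have h2 := abs_sg' (code l g) l
    simp only [u, lt_irrefl, if_false, Pi.zero_apply] at h1
    have h3 : (sg (code l g) l : ℝ) = 0 := by linarith
    rw [h3] at h2
    simp at h2
  intro U V hU hV h0 hF hd
  obtain ⟨N, hN⟩ := open_tail hU h0 (b := 1 / 4) (by norm_num) (by norm_num)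
  have hm : ∀ (l : ℕ) (g : {g : ℕ → ℤ // ∀ k, |g k| ≤ 1}), ∃ m, l < m ∧ ∀ w : L P,
      (∀ k < m, w.1 k = u l g.1 k) → (∀ k, |w.1 k - u l g.1 k| ≤ 1 / 2) → w ∈ V := by
    intro l g
    obtain ⟨n, hn⟩ := open_tail hV (hF (a := ⟨u l g.1, mem_L (u_bd g.2)⟩) ⟨l, g.1, rfl⟩)
      (b := 1 / 2) (by norm_num) (by norm_num)
    exact ⟨max n (l + 1), by omega, fun w h1 h2 => hn w (fun k hk => h1 k (by omega)) h2⟩
  choose m hm1 hm2 using hm
  let step : ℕ × {g : ℕ → ℤ // ∀ k, |g k| ≤ 1} → ℕ × {g : ℕ → ℤ // ∀ k, |g k| ≤ 1} :=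
    fun s => (m s.1 s.2, ⟨fun k => if k < s.1 then s.2.1 k else sg (code s.1 s.2.1) k, fun k => by
      dsimp only
      split_ifs
      · exact s.2.2 k
      · exact (abs_sg _ _).le⟩)
  let st : ℕ → ℕ × {g : ℕ → ℤ // ∀ k, |g k| ≤ 1} := fun j => step^[j] (N, ⟨0, by simp⟩)
  have st_succ : ∀ j, st (j + 1) = step (st j) := fun j => Function.iterate_succ_apply' _ _ _
  have hmono : StrictMono (fun j => (st j).1) :=
    strictMono_nat_of_lt_succ fun j => by rw [st_succ]; exact hm1 _ _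
  have hstab : ∀ j j', j ≤ j' → ∀ k < (st j).1, (st j').2.1 k = (st j).2.1 k := by
    intro j j' hj k hk
    induction j', hj using Nat.le_induction with
    | base => rfl
    | succ i hi ih =>
      rw [st_succ, ← ih]
      exact if_pos (hk.trans_le (hmono.monotone hi))
  let y : ℕ → ℝ := fun k => ((st (k + 1)).2.1 k : ℝ) / 4
  have hy : ∀ j k, k < (st j).1 → y k = ((st j).2.1 k : ℝ) / 4 := by
    intro j k hk
    simp only [y]
    rcases le_total j (k + 1) with h | h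
    · rw [hstab j _ h k hk]
    · rw [hstab _ j h k (lt_of_lt_of_le (Nat.lt_succ_self k) (hmono.id_le (k + 1)))]
  have hyb : ∀ k, |y k| ≤ 1 / 4 := by
    intro k
    have : |((st (k + 1)).2.1 k : ℝ)| ≤ 1 := by exact_mod_cast (st (k + 1)).2.2 k
    simp only [y]
    rw [abs_div, abs_of_pos (by norm_num : (0 : ℝ) < 4)]
    linarith
  have hyU : (⟨y, mem_L hyb⟩ : L P) ∈ U := by
    refine hN _ (fun k hk => ?_) (fun k => by simpa using hyb k)
    change y k = 0
    rw [hy 0 k hk]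
    simp [st]
  obtain ⟨n, hn⟩ := open_tail hU hyU (b := 7 / 8) (by norm_num) (by norm_num)
  let l := (st n).1
  let g := (st n).2
  have hl : n ≤ l := hmono.id_le n
  let w : ℕ → ℝ := fun k => if k < l then y k else y k + 7 / 8 * (sg (code l g.1) k : ℝ)
  have hwy : ∀ k, |w k - y k| ≤ 7 / 8 := by
    intro k
    simp only [w]
    split_ifs
    · norm_num
    · rw [add_sub_cancel_left, abs_mul, abs_sg']; norm_num
  have hwb : ∀ k, |w k| ≤ 2 := fun k => by
    have := abs_sub_abs_le_abs_sub (w k) (y k)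
    linarith [hwy k, hyb k]
  have hwU : (⟨w, mem_L hwb⟩ : L P) ∈ U :=
    hn _ (fun k hk => if_pos (by omega)) hwy
  have hwV : (⟨w, mem_L hwb⟩ : L P) ∈ V := by
    refine hm2 l g _ (fun k hk => ?_) (fun k => ?_)
    · change w k = _
      simp only [w, u]
      split_ifs with h
      · exact hy n k h
      · rw [hy (n + 1) k (by rw [st_succ]; exact hk), st_succ]
        have : (step (st n)).2.1 k = sg (code l g.1) k := if_neg h
        rw [this]; ring
    · change |w k - _| ≤ _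
      simp only [w, u]
      split_ifs with h
      · rw [hy n k h]; simp only [g]; norm_num
      · have a1 := abs_le.1 (hyb k)
        have a2 := abs_le.1 (abs_sg' (code l g.1) k).le
        rw [abs_le]; constructor <;> linarith [a1.1, a1.2, a2.1, a2.2]
  exact Set.disjoint_left.1 hd hwU hwV

end Pool.Agent.Results.MP_aae45c_an.No
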